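import Pool.Agent.H88.Rn4

open Pool.Agent.H88.Rn MeasureTheory

universe u v w

theorem Pool.Agent.Results.MP_01d06f_an.Yes.result
    (𝕜 : Type) [RCLike 𝕜] (X : Type u) [NormedAddCommGroup X] [NormedSpace 𝕜 X] [CompleteSpace X]
    (Ω : Type v) [MeasurableSpace Ω] (μ : Measure Ω) [IsProbabilityMeasure μ]
    (hμ : ∀ A, MeasurableSet A → 0 < μ A → ∃ B ⊆ A, MeasurableSet B ∧ 0 < μ B ∧ μ B < μ A)
    (p q : ENNReal) [p.HolderConjugate q]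
    (H : ∀ f : Ω → X, MemLp f p μ → ∃ g : Ω → StrongDual 𝕜 X, MemLp g q μ ∧ eLpNorm g q μ ≤ 1 ∧
      ∫ ω, g ω (f ω) ∂μ = ((eLpNorm f p μ).toReal : 𝕜)) :
    RNP.{u, w} (StrongDual 𝕜 X) :=
  main hμ p q H
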